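import Mathlib

/-!
Embedding of an RCLike field in the complex numbers.
-/

set_option autoImplicit false

open Matrix

namespace Pool.Agent.Z26.LW.W351.LWEmb

/-- the embedding of an RCLike field in the complex numbers -/
noncomputable def phi (K : Type) [RCLike K] : K →+* ℂ where
  toFun z := (RCLike.re z : ℂ) + (RCLike.im z : ℂ) * Complex.I
  map_one' := by simp
  map_mul' z w := by
    rw [RCLike.mul_re, RCLike.mul_im]
    push_cast
    ring_nf
    rw [Complex.I_sq]
    ring
  map_zero' := by simp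
  map_add' z w := by
    rw [map_add, map_add]
    push_cast
    ring

theorem phi_apply (K : Type) [RCLike K] (z : K) :
    phi K z = (RCLike.re z : ℂ) + (RCLike.im z : ℂ) * Complex.I := rfl

theorem phi_re (K : Type) [RCLike K] (z : K) : (phi K z).re = RCLike.re z := by
  rw [phi_apply]
  simp

theorem phi_im (K : Type) [RCLike K] (z : K) : (phi K z).im = RCLike.im z := by
  rw [phi_apply]
  simp

theorem phi_star (K : Type) [RCLike K] (z : K) : phi K (star z) = star (phi K z) := by
  apply Complex.ext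
  · rw [phi_re, RCLike.star_def, RCLike.conj_re, RCLike.star_def, Complex.conj_re, phi_re]
  · rw [phi_im, RCLike.star_def, RCLike.conj_im, RCLike.star_def, Complex.conj_im, phi_im]

theorem norm_phi (K : Type) [RCLike K] (z : K) : ‖phi K z‖ = ‖z‖ := by
  have h1 : ‖phi K z‖ ^ 2 = ‖z‖ ^ 2 := by
    rw [← Complex.normSq_eq_norm_sq, Complex.normSq_apply, phi_re, phi_im, RCLike.norm_sq_eq_def]
  exact (sq_eq_sq₀ (norm_nonneg _) (norm_nonneg _)).mp h1

theorem phi_conjTranspose (K : Type) [RCLike K] {n : ℕ} (A : Matrix (Fin n) (Fin n) K) :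
    (A.map (phi K))ᴴ = Aᴴ.map (phi K) := by
  ext i j
  rw [conjTranspose_apply, map_apply, map_apply, conjTranspose_apply, phi_star]

theorem phi_mul (K : Type) [RCLike K] {n : ℕ} (A B : Matrix (Fin n) (Fin n) K) :
    (A * B).map (phi K) = A.map (phi K) * B.map (phi K) := Matrix.map_mul

theorem phi_sub (K : Type) [RCLike K] {n : ℕ} (A B : Matrix (Fin n) (Fin n) K) :
    (A - B).map (phi K) = A.map (phi K) - B.map (phi K) := by
  ext i j
  simp

theorem phi_trace (K : Type) [RCLike K] {n : ℕ} (A : Matrix (Fin n) (Fin n) K) :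
    trace (A.map (phi K)) = phi K (trace A) := by
  unfold trace
  rw [map_sum]
  rfl

theorem phi_fro (K : Type) [RCLike K] {n : ℕ} (A : Matrix (Fin n) (Fin n) K) :
    (∑ i, ∑ j, ‖(A.map (phi K)) i j‖ ^ 2) = ∑ i, ∑ j, ‖A i j‖ ^ 2 := by
  apply Finset.sum_congr rfl
  intro i _
  apply Finset.sum_congr rfl
  intro j _
  rw [map_apply, norm_phi]

end Pool.Agent.Z26.LW.W351.LWEmb
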