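import Mathlib
import Pool.Agent.Z26.LW.W781_LW_Scal1

/-! Final real inequalities for the scalar inequality. -/

set_option autoImplicit false

namespace Pool.Agent.Z26.LW.W781.LW

lemma fin_a0 {D δ : ℝ} (h1 : D - 1 / 2 ≤ δ) (h2 : δ ≤ 1 - D) (hD : 1 < 2 * D) (hD1 : D ≤ 1) :
    (1 / 2) * (D + δ - 1 / 2) + (D - 1 / 2) + (2 - δ / D) * (1 - D) ≤ 1 := by
  have hDp : 0 < D := by linarith
  have key : D - 2 * D ^ 2 + δ * (6 * D - 4) ≤ 0 := by
    by_cases h : 0 ≤ 6 * D - 4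
    · nlinarith [mul_nonneg (sub_nonneg.mpr h2) h, sq_nonneg (16 * D - 11)]
    · push Not at h
      nlinarith [mul_nonneg (sub_nonneg.mpr h1) (le_of_lt (neg_pos.mpr h)),
        mul_nonneg (le_of_lt (sub_pos.mpr hD)) (sub_nonneg.mpr hD1)]
  have e : (1 / 2) * (D + δ - 1 / 2) + (D - 1 / 2) + (2 - δ / D) * (1 - D) =
      1 + (D - 2 * D ^ 2 + δ * (6 * D - 4)) / (4 * D) := by
    field_simp
    ring
  rw [e]
  have : (D - 2 * D ^ 2 + δ * (6 * D - 4)) / (4 * D) ≤ 0 :=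
    div_nonpos_of_nonpos_of_nonneg key (by linarith)
  linarith

lemma fin_a1 {D δ : ℝ} (hδ : 0 ≤ δ) (h2 : D + δ ≤ 1) (hD : 1 < 2 * D) :
    (1 / 2) * (1 - 1 / (2 * (D + δ))) * (D + δ - (D - δ)) + (1 - 1 / (2 * D)) * (D + (D - δ))
      + (2 - δ / D) * (1 - D) ≤ 1 := by
  have hDp : 0 < D := by linarith
  have hdp : 0 < D + δ := by linarith
  have e : (1 / 2) * (1 - 1 / (2 * (D + δ))) * (D + δ - (D - δ)) + (1 - 1 / (2 * D)) * (D + (D - δ))
      + (2 - δ / D) * (1 - D) = 1 + δ * (1 - 1 / (2 * (D + δ)) - 1 / (2 * D)) := by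
    field_simp
    ring
  rw [e]
  have h3 : 1 / 2 ≤ 1 / (2 * (D + δ)) := by
    apply one_div_le_one_div_of_le <;> linarith
  have h4 : 1 / 2 ≤ 1 / (2 * D) := by
    apply one_div_le_one_div_of_le <;> linarith
  nlinarith [mul_nonneg hδ (sub_nonneg.mpr h3), mul_nonneg hδ (sub_nonneg.mpr h4)]

/-- final inequality of case (a) -/
lemma fin_a {D δ u : ℝ} (hδ : 0 ≤ δ) (h1 : D - 1 / 2 ≤ δ) (h2 : D + δ ≤ 1) (hD : 1 < 2 * D)
    (hu0 : 0 ≤ u) (hu : u ≤ D - δ) :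
    (1 / 2) * (1 - 1 / (2 * (D + δ))) * (D + δ - u) + (1 - 1 / (2 * D)) * (D + u)
      + (2 - δ / D) * (1 - D) ≤ 1 := by
  have hDp : 0 < D := by linarith
  have hdp : 0 < D + δ := by linarith
  have h0 := fin_a0 h1 (by linarith) hD (by linarith)
  have h3 := fin_a1 hδ h2 hD
  rcases eq_or_lt_of_le (le_trans hu0 hu) with h | h
  · have hu' : u = 0 := by linarith
    subst hu'
    have e : (1 / 2) * (1 - 1 / (2 * (D + δ))) * (D + δ - 0) + (1 - 1 / (2 * D)) * (D + 0) =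
      (1 / 2) * (D + δ - 1 / 2) + (D - 1 / 2) := by
      field_simp
      ring
    rw [e]
    exact h0
  · set P : ℝ := 1 / (2 * (D + δ)) with hP
    set Q : ℝ := 1 / (2 * D) with hQ
    set E : ℝ := (2 - δ / D) * (1 - D) with hE
    have eP : P * (D + δ) = 1 / 2 := by rw [hP]; field_simp
    have eQ : Q * D = 1 / 2 := by rw [hQ]; field_simp
    have g0 : (1 / 2) * (1 - P) * (D + δ) + (1 - Q) * D + E ≤ 1 := by
      have : (1 / 2) * (1 - P) * (D + δ) + (1 - Q) * D + E =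
          (1 / 2) * (D + δ - 1 / 2) + (D - 1 / 2) + E := by
        linear_combination (-1 / 2) * eP - eQ
      rw [this]
      exact h0
    have g1 : (D - δ) * ((1 / 2) * (1 - P) * (D + δ - u) + (1 - Q) * (D + u) + E) ≤ (D - δ) * 1 := by
      have : (D - δ) * ((1 / 2) * (1 - P) * (D + δ - u) + (1 - Q) * (D + u) + E) =
        (D - δ - u) * ((1 / 2) * (1 - P) * (D + δ) + (1 - Q) * D + E) +
        u * ((1 / 2) * (1 - P) * (D + δ - (D - δ)) + (1 - Q) * (D + (D - δ)) + E) := by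
        ring
      rw [this]
      nlinarith [mul_le_mul_of_nonneg_left g0 (sub_nonneg.mpr hu), mul_le_mul_of_nonneg_left h3 hu0]
    exact le_of_mul_le_mul_left g1 h

/-- the constant part in the case `2θ > 1` -/
lemma fin_pp {D δ u : ℝ} (hδ : 0 ≤ δ) (hθ : 0 < D - δ) :
    (1 / 2) * (1 - 1 / (2 * (D + δ))) * (D + δ - u) + (1 - 1 / (2 * D)) * (D + u)
      + (1 / 2) * (1 - 1 / (2 * (D - δ))) * (D - δ - u) =
    2 * D - 1 + u * δ ^ 2 / (2 * (D + δ) * (D - δ) * D) := by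
  have hDp : 0 < D := by linarith
  have hdp : 0 < D + δ := by linarith
  field_simp
  ring

lemma fin_L0 {D δ u : ℝ} (hδ : 0 ≤ δ) (hθ : 0 < D - δ) (hu : u ≤ D - δ) :
    u * δ ^ 2 / (2 * (D + δ) * (D - δ) * D) ≤ δ ^ 2 / (2 * (D + δ) * D) := by
  have hDp : 0 < D := by linarith
  have hdp : 0 < D + δ := by linarith
  rw [div_le_div_iff₀ (by positivity) (by positivity)]
  have : 0 ≤ δ ^ 2 * (2 * (D + δ) * D) := by positivity
  nlinarith [mul_le_mul_of_nonneg_right hu this]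

/-- final inequality of case (c) -/
lemma fin_c {D δ u : ℝ} (hδ : 0 ≤ δ) (h2 : D + δ ≤ 1) (hθ : 1 < 2 * (D - δ))
    (hu : u ≤ D - δ) :
    (2 * D - 1 + u * δ ^ 2 / (2 * (D + δ) * (D - δ) * D)) + (2 - δ / D) * (1 - D) ≤ 1 := by
  have hDp : 0 < D := by linarith
  have hdp : 0 < D + δ := by linarith
  have h := fin_L0 hδ (by linarith) hu
  have e : (2 - δ / D) * (1 - D) = 2 - 2 * D - δ * (1 - D) / D := by
    field_simp
  have h3 : δ ^ 2 / (2 * (D + δ) * D) ≤ δ * (1 - D) / D := by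
    rw [div_le_div_iff₀ (by positivity) (by positivity)]
    have h4 : δ ≤ (1 - D) * (2 * (D + δ)) := by nlinarith
    have : 0 ≤ δ * D := by positivity
    nlinarith [mul_le_mul_of_nonneg_left h4 this]
  rw [e]
  linarith

end Pool.Agent.Z26.LW.W781.LW
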