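import Mathlib
import Pool.Agent.Z26.LW.W781_LW_Scal2

/-! Case I of the scalar inequality. -/

set_option autoImplicit false

namespace Pool.Agent.Z26.LW.W781.LW

/-- `t_ij` in real coordinates -/
noncomputable def tt {ι : Type*} (x y r : ι → ℝ) (i j : ι) : ℝ :=
  (x i - x j) ^ 2 + (y i - y j) ^ 2 + (r i + r j) / 2

lemma tt_symm {ι : Type*} (x y r : ι → ℝ) (i j : ι) : tt x y r i j = tt x y r j i := by
  unfold tt; ring

/-- first moment of `t` -/
lemma mom_t {ι : Type*} (s : Finset ι) (p x y r d : ι → ℝ) (P Pd A1 A2 : ℝ)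
    (hP : ∑ j ∈ s, p j = P) (hx : ∑ j ∈ s, p j * x j = -A1) (hy : ∑ j ∈ s, p j * y j = -A2)
    (hPd : ∑ j ∈ s, p j * d j = Pd)
    (hd : ∀ j, d j = 2 * (x j ^ 2 + y j ^ 2) + r j) (j : ι) :
    ∑ i ∈ s, p i * tt x y r i j = (Pd + P * d j) / 2 + 2 * (A1 * x j + A2 * y j) := by
  have e : ∀ i ∈ s, p i * tt x y r i j =
      (1 / 2) * (p i * d i) + (d j / 2) * p i + (-2 * x j) * (p i * x i) + (-2 * y j) * (p i * y i) := by
    intro i hi
    unfold tt
    rw [hd i, hd j]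
    ring
  rw [Finset.sum_congr rfl e]
  simp only [Finset.sum_add_distrib, ← Finset.mul_sum]
  rw [hP, hx, hy, hPd]
  ring

/-- second moment of `t` -/
lemma mom_tt {ι : Type*} (s : Finset ι) (p x y r d : ι → ℝ) (P Pd A1 A2 : ℝ)
    (hP : ∑ j ∈ s, p j = P) (hx : ∑ j ∈ s, p j * x j = -A1) (hy : ∑ j ∈ s, p j * y j = -A2)
    (hPd : ∑ j ∈ s, p j * d j = Pd)
    (hd : ∀ j, d j = 2 * (x j ^ 2 + y j ^ 2) + r j) :
    ∑ j ∈ s, p j * (∑ i ∈ s, p i * tt x y r i j) = P * Pd - 2 * (A1 ^ 2 + A2 ^ 2) := by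
  have e : ∀ j ∈ s, p j * (∑ i ∈ s, p i * tt x y r i j) =
      (Pd / 2) * p j + (P / 2) * (p j * d j) + (2 * A1) * (p j * x j) + (2 * A2) * (p j * y j) := by
    intro j hj
    rw [mom_t s p x y r d P Pd A1 A2 hP hx hy hPd hd j]
    ring
  rw [Finset.sum_congr rfl e]
  simp only [Finset.sum_add_distrib, ← Finset.mul_sum]
  rw [hP, hx, hy, hPd]
  ring

/-- the weighted double sum when all weights `p` sit at the level `θ` -/
lemma split_tt {ι : Type*} (s : Finset ι) (p x y r d : ι → ℝ) (θ : ℝ)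
    (hpd : ∀ j ∈ s, p j = 0 ∨ d j = θ) :
    ∑ i ∈ s, ∑ j ∈ s, ww (d i + d j) * tt x y r i j =
      ww (2 * θ) * (∑ j ∈ s, p j * (∑ i ∈ s, p i * tt x y r i j))
        + 2 * ∑ j ∈ s, (1 - p j) * (ww (θ + d j) * (∑ i ∈ s, p i * tt x y r i j))
        + ∑ i ∈ s, ∑ j ∈ s, (1 - p i) * (1 - p j) * (ww (d i + d j) * tt x y r i j) := by
  rw [split_sum s p (fun i j => ww (d i + d j) * tt x y r i j)]
  · have h1 : ∀ j ∈ s, ∑ i ∈ s, p i * (ww (d i + d j) * tt x y r i j) =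
        ww (θ + d j) * (∑ i ∈ s, p i * tt x y r i j) := by
      intro j hj
      rw [Finset.mul_sum]
      apply Finset.sum_congr rfl
      intro i hi
      rcases hpd i hi with h | h
      · rw [h]; ring
      · rw [h]; ring
    have h2 : ∑ j ∈ s, p j * (∑ i ∈ s, p i * (ww (d i + d j) * tt x y r i j)) =
        ww (2 * θ) * (∑ j ∈ s, p j * (∑ i ∈ s, p i * tt x y r i j)) := by
      rw [Finset.mul_sum]
      apply Finset.sum_congr rfl
      intro j hj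
      rw [h1 j hj]
      rcases hpd j hj with h | h
      · rw [h]; ring
      · rw [h, two_mul]; ring
    rw [h2]
    congr 2
    congr 1
    apply Finset.sum_congr rfl
    intro j hj
    rw [h1 j hj]
  · intro i hi j hj
    show ww (d i + d j) * tt x y r i j = ww (d j + d i) * tt x y r j i
    rw [tt_symm x y r i j, add_comm (d i) (d j)]

lemma tt_nonneg {ι : Type*} (x y r : ι → ℝ) {i j : ι} (hi : 0 ≤ r i) (hj : 0 ≤ r j) :
    0 ≤ tt x y r i j := by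
  unfold tt; positivity

/-- the double sum with weights `q` over `J`: a bound for `R_qq` -/
lemma qq_bound {ι : Type*} (J : Finset ι) (q x y r d m : ι → ℝ)
    (hq : ∀ j ∈ J, 0 ≤ q j) (hr : ∀ j ∈ J, 0 ≤ r j)
    (hd : ∀ j, d j = 2 * (x j ^ 2 + y j ^ 2) + r j)
    (hm : ∀ i ∈ J, ∀ j ∈ J, m j ≤ 1 - ww (d i + d j)) :
    ∑ i ∈ J, ∑ j ∈ J, q i * q j * (ww (d i + d j) * tt x y r i j) ≤
      (∑ j ∈ J, q j) * (∑ j ∈ J, q j * d j)
        - 2 * ((∑ j ∈ J, q j * x j) ^ 2 + (∑ j ∈ J, q j * y j) ^ 2)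
        - (∑ j ∈ J, q j * r j) * (∑ j ∈ J, q j * m j) := by
  have e1 : ∑ i ∈ J, ∑ j ∈ J, q i * q j * tt x y r i j =
      (∑ j ∈ J, q j) * (∑ j ∈ J, q j * d j)
        - 2 * ((∑ j ∈ J, q j * x j) ^ 2 + (∑ j ∈ J, q j * y j) ^ 2) := by
    have h := mom_tt J q x y r d (∑ j ∈ J, q j) (∑ j ∈ J, q j * d j)
      (-(∑ j ∈ J, q j * x j)) (-(∑ j ∈ J, q j * y j)) rfl (by ring) (by ring) rfl hd
    have e : ∑ i ∈ J, ∑ j ∈ J, q i * q j * tt x y r i j =
        ∑ j ∈ J, q j * (∑ i ∈ J, q i * tt x y r i j) := by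
      rw [Finset.sum_comm]
      apply Finset.sum_congr rfl
      intro j hj
      rw [Finset.mul_sum]
      apply Finset.sum_congr rfl
      intro i hi
      ring
    rw [e, h]
    ring
  have e2 : ∑ i ∈ J, ∑ j ∈ J, q i * q j * (ww (d i + d j) * tt x y r i j) =
      ∑ i ∈ J, ∑ j ∈ J, q i * q j * tt x y r i j -
      ∑ i ∈ J, ∑ j ∈ J, q i * q j * ((1 - ww (d i + d j)) * tt x y r i j) := by
    simp only [← Finset.sum_sub_distrib]
    apply Finset.sum_congr rfl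
    intro i hi
    apply Finset.sum_congr rfl
    intro j hj
    ring
  have e3 : ∑ i ∈ J, ∑ j ∈ J, q i * q j * ((1 - ww (d i + d j)) * ((r i + r j) / 2)) ≤
      ∑ i ∈ J, ∑ j ∈ J, q i * q j * ((1 - ww (d i + d j)) * tt x y r i j) := by
    apply Finset.sum_le_sum
    intro i hi
    apply Finset.sum_le_sum
    intro j hj
    apply mul_le_mul_of_nonneg_left _ (mul_nonneg (hq i hi) (hq j hj))
    apply mul_le_mul_of_nonneg_left _ (sub_nonneg.mpr (ww_le_one _))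
    unfold tt
    nlinarith [sq_nonneg (x i - x j), sq_nonneg (y i - y j)]
  have e4 : ∑ i ∈ J, ∑ j ∈ J, q i * q j * ((1 - ww (d i + d j)) * ((r i + r j) / 2)) =
      ∑ i ∈ J, ∑ j ∈ J, q i * q j * ((1 - ww (d i + d j)) * r i) := by
    have f1 : ∑ i ∈ J, ∑ j ∈ J, q i * q j * ((1 - ww (d i + d j)) * ((r i + r j) / 2)) =
        (1 / 2) * (∑ i ∈ J, ∑ j ∈ J, q i * q j * ((1 - ww (d i + d j)) * r i)) +
        (1 / 2) * (∑ i ∈ J, ∑ j ∈ J, q i * q j * ((1 - ww (d i + d j)) * r j)) := by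
      simp only [Finset.mul_sum, ← Finset.sum_add_distrib]
      apply Finset.sum_congr rfl
      intro i hi
      apply Finset.sum_congr rfl
      intro j hj
      ring
    have f2 : ∑ i ∈ J, ∑ j ∈ J, q i * q j * ((1 - ww (d i + d j)) * r j) =
        ∑ i ∈ J, ∑ j ∈ J, q i * q j * ((1 - ww (d i + d j)) * r i) := by
      rw [Finset.sum_comm]
      apply Finset.sum_congr rfl
      intro i hi
      apply Finset.sum_congr rfl
      intro j hj
      rw [add_comm (d j) (d i)]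
      ring
    rw [f1, f2]
    ring
  have e5 : (∑ j ∈ J, q j * r j) * (∑ j ∈ J, q j * m j) ≤
      ∑ i ∈ J, ∑ j ∈ J, q i * q j * ((1 - ww (d i + d j)) * r i) := by
    rw [Finset.sum_mul_sum]
    apply Finset.sum_le_sum
    intro i hi
    apply Finset.sum_le_sum
    intro j hj
    have h1 : 0 ≤ q i * q j * r i := mul_nonneg (mul_nonneg (hq i hi) (hq j hj)) (hr i hi)
    have h2 := mul_le_mul_of_nonneg_left (hm i hi j hj) h1
    nlinarith [h2]
  rw [e2, e1]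
  linarith [e3, e4, e5]

/-- the normalisation, with weights `p, q = 1 - p` -/
lemma norm_split {ι : Type*} (s : Finset ι) (p x y r d : ι → ℝ) (P Pd A1 A2 b1 b2 : ℝ)
    (hP : ∑ j ∈ s, p j = P) (hx : ∑ j ∈ s, p j * x j = -A1) (hy : ∑ j ∈ s, p j * y j = -A2)
    (hPd : ∑ j ∈ s, p j * d j = Pd)
    (hd : ∀ j, d j = 2 * (x j ^ 2 + y j ^ 2) + r j) :
    ∑ j ∈ s, (r j / 2 + ((x j - b1) ^ 2 + (y j - b2) ^ 2)) =
      Pd / 2 + 2 * (A1 * b1 + A2 * b2) + P * (b1 ^ 2 + b2 ^ 2)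
      + ∑ j ∈ s, (1 - p j) * (r j / 2 + ((x j - b1) ^ 2 + (y j - b2) ^ 2)) := by
  have e : ∀ j ∈ s, (r j / 2 + ((x j - b1) ^ 2 + (y j - b2) ^ 2)) =
      (1 / 2) * (p j * d j) + (-2 * b1) * (p j * x j) + (-2 * b2) * (p j * y j)
        + (b1 ^ 2 + b2 ^ 2) * p j
        + (1 - p j) * (r j / 2 + ((x j - b1) ^ 2 + (y j - b2) ^ 2)) := by
    intro j hj
    rw [hd j]
    ring
  rw [Finset.sum_congr rfl e]
  simp only [Finset.sum_add_distrib, ← Finset.mul_sum]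
  rw [hP, hx, hy, hPd]
  ring

/-- expansion of the `J` part of the normalisation -/
lemma norm_J {ι : Type*} (J : Finset ι) (q x y r d : ι → ℝ) (b1 b2 : ℝ)
    (hd : ∀ j, d j = 2 * (x j ^ 2 + y j ^ 2) + r j) :
    ∑ j ∈ J, q j * (r j / 2 + ((x j - b1) ^ 2 + (y j - b2) ^ 2)) =
      (∑ j ∈ J, q j * d j) / 2 - 2 * (b1 * (∑ j ∈ J, q j * x j) + b2 * (∑ j ∈ J, q j * y j))
      + (∑ j ∈ J, q j) * (b1 ^ 2 + b2 ^ 2) := by
  have e : ∀ j ∈ J, q j * (r j / 2 + ((x j - b1) ^ 2 + (y j - b2) ^ 2)) =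
      (1 / 2) * (q j * d j) + (-2 * b1) * (q j * x j) + (-2 * b2) * (q j * y j)
        + (b1 ^ 2 + b2 ^ 2) * q j := by
    intro j hj
    rw [hd j]
    ring
  rw [Finset.sum_congr rfl e]
  simp only [Finset.sum_add_distrib, ← Finset.mul_sum]
  ring

end Pool.Agent.Z26.LW.W781.LW
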