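import Mathlib
import Pool.Agent.Z26.LW.W781_LW_Scal3

/-! Case I of the scalar inequality. -/

set_option autoImplicit false

namespace Pool.Agent.Z26.LW.W781.LW

/-- the mixed term: pointwise bound -/
lemma mix_bound {D δ d t T : ℝ} (hδ : 0 < δ) (hT : 0 ≤ T) (htT : t + T = D + d) :
    ww (D + δ + d) * t + ww (D - δ + d) * T ≤
      if 1 < D + δ + d then (D + δ + d - 1) * (1 - δ / (D + δ + d)) else 0 := by
  have hm : ww (D - δ + d) ≤ ww (D + δ + d) := ww_mono (by linarith)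
  have h1 : ww (D + δ + d) * t + ww (D - δ + d) * T ≤ ww (D + δ + d) * (D + d) := by
    rw [← htT]
    nlinarith [mul_le_mul_of_nonneg_right hm hT]
  refine le_trans h1 ?_
  split_ifs with h
  · rw [ww_of_lt h]
    have hp : 0 < D + δ + d := by linarith
    have e : (1 - 1 / (D + δ + d)) * (D + d) = (D + δ + d - 1) * (1 - δ / (D + δ + d)) := by
      field_simp
      ring
    exact e.le
  · rw [ww_of_le (not_lt.mp h), zero_mul]

lemma fin_LG {D δ : ℝ} (hδ : 0 < δ) (hθ : 0 < D - δ) :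
    δ ^ 2 / (2 * (D + δ) * D) ≤ δ * (δ / (2 * (D - δ) * D)) := by
  have hD : 0 < D := by linarith
  rw [← mul_div_assoc, ← sq]
  apply div_le_div_of_nonneg_left (by positivity) (by positivity)
  nlinarith

lemma case_b1 {D δ d : ℝ} (hδ : 0 < δ) (hθ : 0 < D - δ) (h4 : 1 ≤ D - δ + d) (h9 : d ≤ D - δ) :
    δ / (2 * (D - δ) * D) ≤ (1 - ww (D - δ + d)) - 1 / (D + δ + d) := by
  have hD : 0 < D := by linarith
  have h5 : 1 - ww (D - δ + d) = 1 / (D - δ + d) := by
    rcases eq_or_lt_of_le h4 with h | h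
    · rw [← h, ww_of_le (le_refl _)]; norm_num
    · rw [ww_of_lt h]; ring
  rw [h5]
  have h6 : 0 < D - δ + d := by linarith
  have h7 : 0 < D + δ + d := by linarith
  have h8 : 1 / (D - δ + d) - 1 / (D + δ + d) =
      2 * δ / ((D - δ + d) * (D + δ + d)) := by
    rw [div_sub_div _ _ h6.ne' h7.ne']
    congr 1
    ring
  rw [h8]
  have h10 : (D - δ + d) * (D + δ + d) ≤ (2 * (D - δ)) * (2 * D) :=
    mul_le_mul (by linarith) (by linarith) h7.le (by linarith)
  have h11 : δ / (2 * (D - δ) * D) = 2 * δ / ((2 * (D - δ)) * (2 * D)) := by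
    rw [show (2 * (D - δ)) * (2 * D) = 2 * (2 * (D - δ) * D) by ring]
    rw [mul_div_mul_left _ _ (by norm_num : (2 : ℝ) ≠ 0)]
  rw [h11]
  exact div_le_div_of_nonneg_left (by linarith) (by positivity) h10

lemma case_b2 {D δ d : ℝ} (hδ : 0 < δ) (h4 : 1 < D + δ + d) :
    0 ≤ (1 - ww (D - δ + d)) - 1 / (D + δ + d) := by
  by_cases h5 : 1 < D - δ + d
  · rw [ww_of_lt h5]
    have : 1 / (D + δ + d) ≤ 1 / (D - δ + d) :=
      one_div_le_one_div_of_le (by linarith) (by linarith)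
    linarith
  · rw [ww_of_le (not_lt.mp h5)]
    have : 1 / (D + δ + d) ≤ 1 := by
      rw [div_le_one (by linarith)]; linarith
    linarith

lemma case_b {ι : Type*} (J K : Finset ι) (q d : ι → ℝ) {D δ : ℝ} (hδ : 0 < δ) (hθ : 0 < D - δ)
    (hKJ : K ⊆ J) (hq : ∀ j ∈ J, 0 ≤ q j) (hJe : ∀ j ∈ J, 1 < D + δ + d j)
    (hK1 : ∀ j ∈ K, 1 ≤ D - δ + d j) (hK2 : ∀ j ∈ K, d j ≤ D - δ) (hκ : 1 ≤ ∑ j ∈ K, q j) :
    δ / (2 * (D - δ) * D) ≤ ∑ j ∈ J, q j * (1 - ww (D - δ + d j))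
      - ∑ j ∈ J, q j * (1 / (D + δ + d j)) := by
  have hD : 0 < D := by linarith
  have hc0 : 0 ≤ δ / (2 * (D - δ) * D) := by positivity
  have h1 : ∑ j ∈ K, q j * (δ / (2 * (D - δ) * D)) ≤
      ∑ j ∈ J, q j * ((1 - ww (D - δ + d j)) - 1 / (D + δ + d j)) := by
    have h3 : ∀ j ∈ K, q j * (δ / (2 * (D - δ) * D)) ≤
        q j * ((1 - ww (D - δ + d j)) - 1 / (D + δ + d j)) := by
      intro j hj
      exact mul_le_mul_of_nonneg_left (case_b1 hδ hθ (hK1 j hj) (hK2 j hj)) (hq j (hKJ hj))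
    refine le_trans (Finset.sum_le_sum h3) ?_
    apply Finset.sum_le_sum_of_subset_of_nonneg hKJ
    intro j hj _
    exact mul_nonneg (hq j hj) (case_b2 hδ (hJe j hj))
  rw [← Finset.sum_mul] at h1
  have h2 : ∑ j ∈ J, q j * (1 - ww (D - δ + d j)) - ∑ j ∈ J, q j * (1 / (D + δ + d j)) =
      ∑ j ∈ J, q j * ((1 - ww (D - δ + d j)) - 1 / (D + δ + d j)) := by
    rw [← Finset.sum_sub_distrib]
    exact Finset.sum_congr rfl (fun j _ => by ring)
  rw [h2]
  nlinarith [mul_le_mul_of_nonneg_right hκ hc0]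

set_option maxHeartbeats 2000000 in
theorem caseI {ι : Type*} (s : Finset ι) (p x y r d : ι → ℝ) (A1 A2 r0 b1 b2 D δ : ℝ)
    (hp0 : ∀ j ∈ s, 0 ≤ p j) (hp1 : ∀ j ∈ s, p j ≤ 1) (hps : ∑ j ∈ s, p j = 1)
    (hx : ∑ j ∈ s, p j * x j = -A1) (hy : ∑ j ∈ s, p j * y j = -A2)
    (hr : ∀ j ∈ s, 0 ≤ r j) (hr0 : 0 ≤ r0) (hr2 : r0 ≤ ∑ j ∈ s, r j)
    (hd : ∀ j, d j = 2 * (x j ^ 2 + y j ^ 2) + r j)
    (hdθ : ∀ j ∈ s, d j ≤ D - δ) (hpd : ∀ j ∈ s, p j = 0 ∨ d j = D - δ)
    (hd1 : D + δ = 2 * (A1 ^ 2 + A2 ^ 2) + r0) (hδ : 0 < δ)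
    (hn : r0 / 2 + ((A1 - b1) ^ 2 + (A2 - b2) ^ 2)
      + ∑ j ∈ s, (r j / 2 + ((x j - b1) ^ 2 + (y j - b2) ^ 2)) = 1) :
    ww (2 * (D + δ)) * r0
      + 2 * ∑ j ∈ s, ww (D + δ + d j) * ((A1 - x j) ^ 2 + (A2 - y j) ^ 2 + (r0 + r j) / 2)
      + ∑ i ∈ s, ∑ j ∈ s, ww (d i + d j) * tt x y r i j ≤ 2 := by
  classical
  have hd0 : ∀ j ∈ s, 0 ≤ d j := by
    intro j hj
    rw [hd j]
    have := hr j hj
    positivity
  have hq0 : ∀ j ∈ s, 0 ≤ 1 - p j := fun j hj => sub_nonneg.mpr (hp1 j hj)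
  have hPd : ∑ j ∈ s, p j * d j = D - δ := by
    have e : ∀ j ∈ s, p j * d j = (D - δ) * p j := by
      intro j hj
      rcases hpd j hj with h | h
      · rw [h]; ring
      · rw [h]; ring
    rw [Finset.sum_congr rfl e, ← Finset.mul_sum, hps, mul_one]
  have hθ0 : 0 ≤ D - δ := by
    rw [← hPd]
    exact Finset.sum_nonneg (fun j hj => mul_nonneg (hp0 j hj) (hd0 j hj))
  obtain ⟨u, hu⟩ : ∃ u, u = 2 * (A1 ^ 2 + A2 ^ 2) := ⟨_, rfl⟩
  have hu0 : 0 ≤ u := by rw [hu]; positivity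
  have hr0' : r0 = D + δ - u := by rw [hd1, hu]; ring
  -- Jensen
  have hJ : A1 ^ 2 + A2 ^ 2 ≤ ∑ j ∈ s, p j * (x j ^ 2 + y j ^ 2) := by
    have h1 := cs_sum s p x hp0
    have h2 := cs_sum s p y hp0
    rw [hps, one_mul, hx] at h1
    rw [hps, one_mul, hy] at h2
    have e : ∑ j ∈ s, p j * (x j ^ 2 + y j ^ 2) =
        ∑ j ∈ s, p j * x j ^ 2 + ∑ j ∈ s, p j * y j ^ 2 := by
      rw [← Finset.sum_add_distrib]
      exact Finset.sum_congr rfl (fun j _ => by ring)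
    rw [e]
    linarith [neg_sq A1, neg_sq A2]
  have hpr : ∑ j ∈ s, p j * r j = (D - δ) - 2 * ∑ j ∈ s, p j * (x j ^ 2 + y j ^ 2) := by
    rw [← hPd, Finset.mul_sum, ← Finset.sum_sub_distrib]
    apply Finset.sum_congr rfl
    intro j hj
    rw [hd j]; ring
  have hpr0 : 0 ≤ ∑ j ∈ s, p j * r j :=
    Finset.sum_nonneg (fun j hj => mul_nonneg (hp0 j hj) (hr j hj))
  have huθ : u ≤ D - δ := by rw [hu]; linarith
  have hrho : 2 * δ ≤ ∑ j ∈ s, (1 - p j) * r j := by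
    have e : ∑ j ∈ s, (1 - p j) * r j = ∑ j ∈ s, r j - ∑ j ∈ s, p j * r j := by
      rw [← Finset.sum_sub_distrib]
      exact Finset.sum_congr rfl (fun j _ => by ring)
    rw [e, hpr]
    rw [hu] at hr0'
    linarith
  -- normalisation
  have hN1 : D + 2 * (b1 ^ 2 + b2 ^ 2)
      + ∑ j ∈ s, (1 - p j) * (r j / 2 + ((x j - b1) ^ 2 + (y j - b2) ^ 2)) = 1 := by
    rw [norm_split s p x y r d 1 (D - δ) A1 A2 b1 b2 hps hx hy hPd hd] at hn
    rw [hr0', hu] at hn
    linarith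
  have hNr : ∀ j ∈ s, (1 - p j) * r j / 2 ≤
      (1 - p j) * (r j / 2 + ((x j - b1) ^ 2 + (y j - b2) ^ 2)) := by
    intro j hj
    have := mul_nonneg (hq0 j hj) (add_nonneg (sq_nonneg (x j - b1)) (sq_nonneg (y j - b2)))
    linarith
  have hd1le : D + δ ≤ 1 := by
    have h1 := Finset.sum_le_sum hNr
    rw [← Finset.sum_div] at h1
    have : 0 ≤ 2 * (b1 ^ 2 + b2 ^ 2) := by positivity
    linarith
  have hD0 : 0 < D := by linarith
  -- the set J
  obtain ⟨J, hJdef⟩ : ∃ J, J = s.filter (fun j => 1 < D + δ + d j) := ⟨_, rfl⟩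
  obtain ⟨J', hJ'def⟩ : ∃ J', J' = s.filter (fun j => ¬ (1 < D + δ + d j)) := ⟨_, rfl⟩
  have hJs : ∀ j ∈ J, j ∈ s := by
    intro j hj; rw [hJdef] at hj; exact (Finset.mem_filter.mp hj).1
  have hJ's : ∀ j ∈ J', j ∈ s := by
    intro j hj; rw [hJ'def] at hj; exact (Finset.mem_filter.mp hj).1
  have hJe : ∀ j ∈ J, 1 < D + δ + d j := by
    intro j hj; rw [hJdef] at hj; exact (Finset.mem_filter.mp hj).2
  have hJ'e : ∀ j ∈ J', D + δ + d j ≤ 1 := by
    intro j hj; rw [hJ'def] at hj; exact not_lt.mp (Finset.mem_filter.mp hj).2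
  have hsplit : ∀ f : ι → ℝ, ∑ j ∈ s, f j = ∑ j ∈ J, f j + ∑ j ∈ J', f j := by
    intro f
    rw [hJdef, hJ'def]
    exact (Finset.sum_filter_add_sum_filter_not s _ f).symm
  obtain ⟨κ, hκ⟩ : ∃ κ, κ = ∑ j ∈ J, (1 - p j) := ⟨_, rfl⟩
  obtain ⟨DJ, hDJ⟩ : ∃ DJ, DJ = ∑ j ∈ J, (1 - p j) * d j := ⟨_, rfl⟩
  obtain ⟨SX, hSX⟩ : ∃ SX, SX = ∑ j ∈ J, (1 - p j) * x j := ⟨_, rfl⟩
  obtain ⟨SY, hSY⟩ : ∃ SY, SY = ∑ j ∈ J, (1 - p j) * y j := ⟨_, rfl⟩
  obtain ⟨PIN, hPIN⟩ : ∃ PIN, PIN = ∑ j ∈ J, (1 - p j) * r j := ⟨_, rfl⟩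
  obtain ⟨POUT, hPOUT⟩ : ∃ POUT, POUT = ∑ j ∈ J', (1 - p j) * r j := ⟨_, rfl⟩
  obtain ⟨NOUT, hNOUT⟩ : ∃ NOUT, NOUT = ∑ j ∈ J',
    (1 - p j) * (r j / 2 + ((x j - b1) ^ 2 + (y j - b2) ^ 2)) := ⟨_, rfl⟩
  have hκ0 : 0 ≤ κ := by
    rw [hκ]; exact Finset.sum_nonneg (fun j hj => hq0 j (hJs j hj))
  have hPIN0 : 0 ≤ PIN := by
    rw [hPIN]
    exact Finset.sum_nonneg (fun j hj => mul_nonneg (hq0 j (hJs j hj)) (hr j (hJs j hj)))
  have hPOUT0 : 0 ≤ POUT := by
    rw [hPOUT]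
    exact Finset.sum_nonneg (fun j hj => mul_nonneg (hq0 j (hJ's j hj)) (hr j (hJ's j hj)))
  have hNP : POUT / 2 ≤ NOUT := by
    rw [hPOUT, hNOUT, Finset.sum_div]
    exact Finset.sum_le_sum (fun j hj => hNr j (hJ's j hj))
  have hrho' : 2 * δ ≤ PIN + POUT := by
    rw [hsplit, ← hPIN, ← hPOUT] at hrho
    exact hrho
  have hN2 : D + 2 * (b1 ^ 2 + b2 ^ 2) + (DJ / 2 - 2 * (b1 * SX + b2 * SY)
      + κ * (b1 ^ 2 + b2 ^ 2)) + NOUT = 1 := by
    rw [hsplit, ← hNOUT, norm_J J (fun j => 1 - p j) x y r d b1 b2 hd, ← hκ, ← hDJ, ← hSX, ← hSY]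
      at hN1
    linarith
  have hE : (κ + 2) * (1 - D) - (1 + κ / 2) * DJ + (SX ^ 2 + SY ^ 2) =
      ((κ + 2) * b1 - SX) ^ 2 + ((κ + 2) * b2 - SY) ^ 2 + (κ + 2) * NOUT := by
    linear_combination (-(κ + 2)) * hN2
  have hE' : (κ + 2) / 2 * POUT ≤ (κ + 2) * (1 - D) - (1 + κ / 2) * DJ + (SX ^ 2 + SY ^ 2) := by
    rw [hE]
    have h1 := mul_le_mul_of_nonneg_left hNP (show (0 : ℝ) ≤ κ + 2 by linarith)
    have h2 := sq_nonneg ((κ + 2) * b1 - SX)
    have h3 := sq_nonneg ((κ + 2) * b2 - SY)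
    linarith only [h1, h2, h3]
  have hCS : 2 * (SX ^ 2 + SY ^ 2) ≤ κ * (DJ - PIN) := by
    have h1 := cs_sum J (fun j => 1 - p j) x (fun j hj => hq0 j (hJs j hj))
    have h2 := cs_sum J (fun j => 1 - p j) y (fun j hj => hq0 j (hJs j hj))
    rw [← hκ, ← hSX] at h1
    rw [← hκ, ← hSY] at h2
    have e : DJ - PIN = 2 * (∑ j ∈ J, (1 - p j) * x j ^ 2) + 2 * (∑ j ∈ J, (1 - p j) * y j ^ 2) := by
      rw [hDJ, hPIN, Finset.mul_sum, Finset.mul_sum, ← Finset.sum_sub_distrib,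
        ← Finset.sum_add_distrib]
      apply Finset.sum_congr rfl
      intro j hj
      rw [hd j]; ring
    rw [e]
    linarith
  -- the decomposition of the sum
  obtain ⟨T, hT⟩ : ∃ T : ι → ℝ, T = fun j => ∑ i ∈ s, p i * tt x y r i j := ⟨_, rfl⟩
  have hTj : ∀ j, T j = (D - δ + d j) / 2 + 2 * (A1 * x j + A2 * y j) := by
    intro j
    rw [hT]
    have := mom_t s p x y r d 1 (D - δ) A1 A2 hps hx hy hPd hd j
    rw [one_mul] at this
    exact this
  have hT0 : ∀ j ∈ s, 0 ≤ T j := by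
    intro j hj
    rw [hT]
    exact Finset.sum_nonneg (fun i hi => mul_nonneg (hp0 i hi) (tt_nonneg x y r (hr i hi) (hr j hj)))
  have hsp := split_tt s p x y r d (D - δ) hpd
  have hTT : ∑ j ∈ s, p j * (∑ i ∈ s, p i * tt x y r i j) = D - δ - u := by
    rw [mom_tt s p x y r d 1 (D - δ) A1 A2 hps hx hy hPd hd, hu]; ring
  rw [hTT] at hsp
  obtain ⟨t0, ht0⟩ : ∃ t0 : ι → ℝ,
    t0 = fun j => (A1 - x j) ^ 2 + (A2 - y j) ^ 2 + (r0 + r j) / 2 := ⟨_, rfl⟩
  have ht0j : ∀ j, t0 j = (D + δ + d j) / 2 - 2 * (A1 * x j + A2 * y j) := by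
    intro j
    rw [ht0, hd j, hd1]
    simp only
    ring
  have ht00 : ∀ j ∈ s, 0 ≤ t0 j := by
    intro j hj
    rw [ht0]
    have := hr j hj
    positivity
  have hw0 : ∑ j ∈ s, ww (D + δ + d j) * t0 j = ww (2 * D) * (D + u)
      + ∑ j ∈ s, (1 - p j) * (ww (D + δ + d j) * t0 j) := by
    have e : ∀ j ∈ s, ww (D + δ + d j) * t0 j = ww (2 * D) * (p j * t0 j)
        + (1 - p j) * (ww (D + δ + d j) * t0 j) := by
      intro j hj
      rcases hpd j hj with h | h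
      · rw [h]; ring
      · rw [h, show D + δ + (D - δ) = 2 * D by ring]; ring
    rw [Finset.sum_congr rfl e, Finset.sum_add_distrib, ← Finset.mul_sum]
    congr 2
    have e2 : ∀ j ∈ s, p j * t0 j = ((D + δ) / 2) * p j + (1 / 2) * (p j * d j)
        + (-2 * A1) * (p j * x j) + (-2 * A2) * (p j * y j) := by
      intro j hj
      rw [ht0j j]; ring
    rw [Finset.sum_congr rfl e2]
    simp only [Finset.sum_add_distrib, ← Finset.mul_sum]
    rw [hps, hx, hy, hPd, hu]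
    ring
  obtain ⟨U, hU⟩ : ∃ U, U = ∑ j ∈ s, (1 - p j) * (ww (D + δ + d j) * t0 j + ww (D - δ + d j) * T j) :=
    ⟨_, rfl⟩
  obtain ⟨Rqq, hRqq⟩ : ∃ Rqq, Rqq = ∑ i ∈ s, ∑ j ∈ s,
    (1 - p i) * (1 - p j) * (ww (d i + d j) * tt x y r i j) := ⟨_, rfl⟩
  have hR : ww (2 * (D + δ)) * r0
      + 2 * ∑ j ∈ s, ww (D + δ + d j) * ((A1 - x j) ^ 2 + (A2 - y j) ^ 2 + (r0 + r j) / 2)
      + ∑ i ∈ s, ∑ j ∈ s, ww (d i + d j) * tt x y r i j =
      2 * ((1 / 2) * ww (2 * (D + δ)) * (D + δ - u) + ww (2 * D) * (D + u)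
        + (1 / 2) * ww (2 * (D - δ)) * (D - δ - u) + U) + Rqq := by
    have e0 : ∑ j ∈ s, ww (D + δ + d j) * ((A1 - x j) ^ 2 + (A2 - y j) ^ 2 + (r0 + r j) / 2) =
        ∑ j ∈ s, ww (D + δ + d j) * t0 j := by rw [ht0]
    have e1 : ∑ j ∈ s, (1 - p j) * (ww (D - δ + d j) * ∑ i ∈ s, p i * tt x y r i j) =
        ∑ j ∈ s, (1 - p j) * (ww (D - δ + d j) * T j) := by rw [hT]
    have e2 : U = ∑ j ∈ s, (1 - p j) * (ww (D + δ + d j) * t0 j)
        + ∑ j ∈ s, (1 - p j) * (ww (D - δ + d j) * T j) := by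
      rw [hU, ← Finset.sum_add_distrib]
      exact Finset.sum_congr rfl (fun j _ => by ring)
    rw [e0, hsp, e1, hw0, ← hRqq, e2, hr0']
    ring
  rw [hR]
  -- bound for U
  have hU1 : U ≤ ∑ j ∈ J, (1 - p j) * ((D + δ + d j - 1) * (1 - δ / (D + δ + d j))) := by
    have h1 : ∀ j ∈ s, (1 - p j) * (ww (D + δ + d j) * t0 j + ww (D - δ + d j) * T j) ≤
        (1 - p j) * (if 1 < D + δ + d j then (D + δ + d j - 1) * (1 - δ / (D + δ + d j)) else 0) := by
      intro j hj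
      apply mul_le_mul_of_nonneg_left _ (hq0 j hj)
      apply mix_bound hδ (hT0 j hj)
      rw [ht0j j, hTj j]; ring
    rw [hU]
    refine le_trans (Finset.sum_le_sum h1) (le_of_eq ?_)
    rw [hsplit]
    have h2 : ∑ j ∈ J', (1 - p j) *
        (if 1 < D + δ + d j then (D + δ + d j - 1) * (1 - δ / (D + δ + d j)) else 0) = 0 := by
      apply Finset.sum_eq_zero
      intro j hj
      rw [if_neg (not_lt.mpr (hJ'e j hj)), mul_zero]
    rw [h2, add_zero]
    apply Finset.sum_congr rfl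
    intro j hj
    rw [if_pos (hJe j hj)]
  -- the second bound for U
  have hE2 : ∑ j ∈ J, (1 - p j) * (D + δ + d j - 1) ≤ 2 * (1 - D) := by
    have e : ∑ j ∈ J, (1 - p j) * (D + δ + d j - 1) = (D + δ - 1) * κ + DJ := by
      rw [hκ, hDJ, Finset.mul_sum, ← Finset.sum_add_distrib]
      exact Finset.sum_congr rfl (fun j _ => by ring)
    rw [e]
    have h1 := mul_nonneg hκ0 (sub_nonneg.mpr hrho')
    linarith only [h1, hE', hCS, hPOUT0]
  have hDe : ∀ j ∈ J, D + δ + d j ≤ 2 * D := fun j hj => by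
    have := hdθ j (hJs j hj)
    linarith
  have hU2 : U ≤ (2 - δ / D) * (1 - D) := by
    have h1 : ∀ j ∈ J, (1 - p j) * ((D + δ + d j - 1) * (1 - δ / (D + δ + d j))) ≤
        (1 - δ / (2 * D)) * ((1 - p j) * (D + δ + d j - 1)) := by
      intro j hj
      have h2 : δ / (2 * D) ≤ δ / (D + δ + d j) :=
        div_le_div_of_nonneg_left hδ.le (by linarith [hJe j hj]) (hDe j hj)
      have h3 : 0 ≤ (1 - p j) * (D + δ + d j - 1) :=
        mul_nonneg (hq0 j (hJs j hj)) (by linarith [hJe j hj])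
      have h7 := mul_le_mul_of_nonneg_left h2 h3
      linarith only [h7]
    have h4 := Finset.sum_le_sum h1
    rw [← Finset.mul_sum] at h4
    have h5 : 0 ≤ 1 - δ / (2 * D) := by
      rw [sub_nonneg, div_le_one (by linarith)]
      linarith
    have h6 := mul_le_mul_of_nonneg_left hE2 h5
    have e : (1 - δ / (2 * D)) * (2 * (1 - D)) = (2 - δ / D) * (1 - D) := by
      field_simp
    linarith only [h4, h6, e, hU1]
  by_cases hc : 2 * (D - δ) ≤ 1
  · -- case (a)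
    have hq : Rqq = 0 := by
      rw [hRqq]
      apply Finset.sum_eq_zero
      intro i hi
      apply Finset.sum_eq_zero
      intro j hj
      rw [ww_of_le (by linarith [hdθ i hi, hdθ j hj])]
      ring
    rw [hq, ww_of_le hc]
    by_cases hc2 : 2 * D ≤ 1
    · have hU0 : U ≤ 0 := by
        refine le_trans hU1 (le_of_eq ?_)
        apply Finset.sum_eq_zero
        intro j hj
        exfalso
        linarith [hJe j hj, hDe j hj]
      rw [ww_of_le hc2]
      have h1 : ww (2 * (D + δ)) * (D + δ - u) ≤ 1 * 1 :=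
        mul_le_mul (ww_le_one _) (by linarith only [hd1le, hu0]) (by linarith only [huθ, hδ]) (by norm_num)
      linarith only [h1, hU0]
    · push Not at hc2
      rw [ww_of_lt hc2, ww_of_lt (show 1 < 2 * (D + δ) by linarith)]
      have := fin_a hδ.le (by linarith only [hc]) hd1le hc2 hu0 huθ
      linarith only [this, hU2]
  · push Not at hc
    rw [ww_of_lt hc, ww_of_lt (show 1 < 2 * D by linarith), ww_of_lt (show 1 < 2 * (D + δ) by linarith)]
    have hθ : 0 < D - δ := by linarith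
    have hpp := fin_pp (u := u) hδ.le hθ
    have hL0 := fin_L0 hδ.le hθ huθ
    obtain ⟨L0, hL0d⟩ : ∃ L0, L0 = u * δ ^ 2 / (2 * (D + δ) * (D - δ) * D) := ⟨_, rfl⟩
    rw [← hL0d] at hpp hL0
    obtain ⟨K, hKdef⟩ : ∃ K, K = s.filter (fun j => 1 ≤ D - δ + d j) := ⟨_, rfl⟩
    have hKs : ∀ j ∈ K, j ∈ s := by
      intro j hj; rw [hKdef] at hj; exact (Finset.mem_filter.mp hj).1
    have hKp : ∑ j ∈ K, p j = 1 := by
      rw [← hps, hKdef, Finset.sum_filter]
      apply Finset.sum_congr rfl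
      intro j hj
      split_ifs with h
      · rfl
      · rcases hpd j hj with h1 | h1
        · exact h1.symm
        · exfalso; apply h; linarith
    have hKq : ∑ j ∈ K, (1 - p j) = (K.card : ℝ) - 1 := by
      rw [Finset.sum_sub_distrib, hKp]
      simp
    by_cases hK1 : K.card ≤ 1
    · -- case (c)
      have hq : ∀ j ∈ K, 1 - p j = 0 := by
        have h1 : (K.card : ℝ) ≤ 1 := by exact_mod_cast hK1
        have h2 : ∑ j ∈ K, (1 - p j) = 0 := by
          apply le_antisymm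
          · rw [hKq]; linarith
          · exact Finset.sum_nonneg (fun j hj => hq0 j (hKs j hj))
        exact (Finset.sum_eq_zero_iff_of_nonneg (fun j hj => hq0 j (hKs j hj))).mp h2
      have hqq : Rqq = 0 := by
        rw [hRqq]
        apply Finset.sum_eq_zero
        intro i hi
        apply Finset.sum_eq_zero
        intro j hj
        by_cases h : i ∈ K
        · rw [hq i h]; ring
        · have h3 : D - δ + d i < 1 := by
            by_contra h4
            apply h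
            rw [hKdef, Finset.mem_filter]
            exact ⟨hi, not_lt.mp h4⟩
          rw [ww_of_le (by linarith [hdθ j hj])]
          ring
      have := fin_c hδ.le hd1le hc huθ
      rw [← hL0d] at this
      rw [hpp, hqq]
      linarith only [this, hU2]
    · -- case (b)
      push Not at hK1
      have hκK : 1 ≤ ∑ j ∈ K, (1 - p j) := by
        rw [hKq]
        have : (2 : ℝ) ≤ K.card := by exact_mod_cast hK1
        linarith
      obtain ⟨M, hM⟩ : ∃ M, M = ∑ j ∈ J, (1 - p j) * (1 - ww (D - δ + d j)) := ⟨_, rfl⟩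
      obtain ⟨G, hG⟩ : ∃ G, G = ∑ j ∈ J, (1 - p j) * (1 / (D + δ + d j)) := ⟨_, rfl⟩
      have hqq : Rqq ≤ κ * DJ - 2 * (SX ^ 2 + SY ^ 2) - PIN * M := by
        have h1 := qq_bound J (fun j => 1 - p j) x y r d (fun j => 1 - ww (D - δ + d j))
          (fun j hj => hq0 j (hJs j hj)) (fun j hj => hr j (hJs j hj)) hd
          (fun i hi j hj => by
            have := ww_mono (show d i + d j ≤ D - δ + d j by linarith [hdθ i (hJs i hi)])
            linarith)
        rw [← hκ, ← hDJ, ← hSX, ← hSY, ← hPIN, ← hM] at h1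
        refine le_trans (le_of_eq ?_) h1
        rw [hRqq, hsplit]
        have h2 : ∑ i ∈ J', ∑ j ∈ s, (1 - p i) * (1 - p j) * (ww (d i + d j) * tt x y r i j) = 0 := by
          apply Finset.sum_eq_zero
          intro i hi
          apply Finset.sum_eq_zero
          intro j hj
          rw [ww_of_le (by linarith [hdθ j hj, hJ'e i hi])]
          ring
        rw [h2, add_zero]
        apply Finset.sum_congr rfl
        intro i hi
        rw [hsplit]
        have h3 : ∑ j ∈ J', (1 - p i) * (1 - p j) * (ww (d i + d j) * tt x y r i j) = 0 := by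
          apply Finset.sum_eq_zero
          intro j hj
          rw [ww_of_le (by linarith [hdθ i (hJs i hi), hJ'e j hj])]
          ring
        rw [h3, add_zero]
      have hU3 : U ≤ -κ * (1 - D) + DJ + δ * G := by
        refine le_trans hU1 (le_of_eq ?_)
        rw [hκ, hDJ, hG, Finset.mul_sum, neg_mul, Finset.sum_mul, ← Finset.sum_neg_distrib,
          ← Finset.sum_add_distrib, ← Finset.sum_add_distrib]
        apply Finset.sum_congr rfl
        intro j hj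
        have : 0 < D + δ + d j := by linarith [hJe j hj]
        field_simp
        ring
      have hMκ : M ≤ κ := by
        rw [hM, hκ]
        apply Finset.sum_le_sum
        intro j hj
        have h1 := ww_nonneg (D - δ + d j)
        have h2 := mul_nonneg (hq0 j (hJs j hj)) h1
        linarith only [h2]
      have hM0 : 0 ≤ M := by
        rw [hM]
        exact Finset.sum_nonneg (fun j hj =>
          mul_nonneg (hq0 j (hJs j hj)) (sub_nonneg.mpr (ww_le_one _)))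
      have hMG : δ / (2 * (D - δ) * D) ≤ M - G := by
        have hKJ : K ⊆ J := by
          intro j hj
          rw [hKdef, Finset.mem_filter] at hj
          rw [hJdef, Finset.mem_filter]
          exact ⟨hj.1, by linarith [hj.2]⟩
        rw [hM, hG]
        exact case_b J K (fun j => 1 - p j) d hδ hθ hKJ (fun j hj => hq0 j (hJs j hj)) hJe
          (fun j hj => by
            rw [hKdef, Finset.mem_filter] at hj
            exact hj.2) (fun j hj => hdθ j (hKs j hj)) hκK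
      have hLG : L0 + δ * G ≤ δ * M := by
        have h1 := fin_LG hδ hθ
        have h2 := mul_le_mul_of_nonneg_left hMG hδ.le
        linarith only [h1, h2, hL0]
      have hfin : L0 + δ * G ≤ (1 / 2) * (PIN * M) + (κ + 2) / 2 * POUT := by
        have h1 := mul_le_mul_of_nonneg_right hrho' hM0
        have h2 := mul_le_mul_of_nonneg_left hMκ hPOUT0
        linarith only [h1, h2, hLG, hPOUT0]
      rw [hpp]
      linarith only [hfin, hE', hU3, hqq]

end Pool.Agent.Z26.LW.W781.LW
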