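import Mathlib
import Pool.Agent.Z26.LW.W781_LW_Stm

/-!
The scalar inequality in the flat case.
-/

set_option autoImplicit false

namespace Pool.Agent.Z26.LW.W965.LW

open Pool.Agent.Z26.LW.W781.LW

lemma nsq (z : ℂ) : ‖z‖ ^ 2 = z.re ^ 2 + z.im ^ 2 := by
  rw [← Complex.normSq_eq_norm_sq, Complex.normSq_apply]; ring

variable {n : ℕ}

/-- the quadratic form of `t` -/
lemma sum_t (al ga d x y : Fin n → ℝ) :
    ∑ i, ∑ j, al i * ga j * ((d i + d j) / 2 - 2 * (x i * x j + y i * y j)) =
      (∑ i, al i * d i) * (∑ j, ga j) / 2 + (∑ i, al i) * (∑ j, ga j * d j) / 2 -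
        2 * ((∑ i, al i * x i) * (∑ j, ga j * x j) + (∑ i, al i * y i) * (∑ j, ga j * y j)) := by
  have e : ∀ (f g : Fin n → ℝ), (∑ i, f i) * (∑ j, g j) = ∑ i, ∑ j, f i * g j := by
    intro f g
    rw [Finset.sum_mul_sum]
  rw [e, e, e, e, Finset.sum_div, Finset.sum_div, ← Finset.sum_add_distrib, ← Finset.sum_add_distrib,
    Finset.mul_sum, ← Finset.sum_sub_distrib]
  apply Finset.sum_congr rfl
  intro i _
  rw [Finset.sum_div, Finset.sum_div, ← Finset.sum_add_distrib, ← Finset.sum_add_distrib,
    Finset.mul_sum, ← Finset.sum_sub_distrib]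
  apply Finset.sum_congr rfl
  intro j _
  ring

lemma ww_le_one (s : ℝ) : ww s ≤ 1 := by
  unfold ww
  split_ifs with h
  · have : 0 < 1 / s := by positivity
    linarith
  · norm_num

lemma ww_nonneg (s : ℝ) : 0 ≤ ww s := by
  unfold ww
  split_ifs with h
  · have : 1 / s ≤ 1 := (div_le_one (by linarith)).2 h.le
    linarith
  · norm_num

theorem scal_flat (n : ℕ) (p r : Fin n → ℝ) (a : Fin n → ℂ) (β : ℂ) (th : ℝ)
    (hp0 : ∀ i, 0 ≤ p i) (hp1 : ∀ i, p i ≤ 1) (hp2 : ∑ i, p i = 2)
    (hpa : ∑ i, (p i : ℂ) * a i = 0) (hr : ∀ i, 0 ≤ r i)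
    (hth : ∀ i, sd a r i ≤ th) (hth' : ∀ i, 0 < p i → sd a r i = th)
    (hn : ∑ i, (r i / 2 + ‖a i - β‖ ^ 2) = 1) :
    ∑ i, ∑ j, ww (sd a r i + sd a r j) * st a r i j ≤ 2 := by
  set x : Fin n → ℝ := fun i => (a i).re with hx
  set y : Fin n → ℝ := fun i => (a i).im with hy
  set u := β.re with hu
  set v := β.im with hv
  set d : Fin n → ℝ := sd a r with hd
  have hdx : ∀ i, d i = 2 * (x i ^ 2 + y i ^ 2) + r i := by
    intro i
    simp only [hd, sd, nsq, hx, hy]
  set t : Fin n → Fin n → ℝ := st a r with ht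
  have htx : ∀ i j, t i j = (d i + d j) / 2 - 2 * (x i * x j + y i * y j) := by
    intro i j
    rw [hdx, hdx]
    simp only [ht, st, nsq, hx, hy, Complex.sub_re, Complex.sub_im]
    ring
  have ht0 : ∀ i j, 0 ≤ t i j := by
    intro i j
    have := hr i
    have := hr j
    simp only [ht, st]
    positivity
  have hd0 : ∀ i, 0 ≤ d i := by
    intro i
    rw [hdx]
    have := hr i
    positivity
  have hpx : ∑ i, p i * x i = 0 := by
    have h := congrArg Complex.re hpa
    simpa [hx] using h
  have hpy : ∑ i, p i * y i = 0 := by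
    have h := congrArg Complex.im hpa
    simpa [hy] using h
  have hpd : ∑ i, p i * d i = 2 * th := by
    rw [← hp2, Finset.sum_mul]
    apply Finset.sum_congr rfl
    intro i _
    rcases (hp0 i).eq_or_lt with h | h
    · rw [← h]; ring
    · rw [hth' i h]
  rcases le_or_gt (2 * th) 1 with hc | hc
  · -- everything vanishes
    have h0 : ∀ i j, ww (d i + d j) * t i j = 0 := by
      intro i j
      have h1 := hth i
      have h2 := hth j
      have h3 : ww (d i + d j) = 0 := by
        unfold ww
        rw [if_neg]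
        linarith
      rw [h3, zero_mul]
    simp only [h0]
    simp
  -- the main case
  set q : Fin n → ℝ := fun i => 1 - p i with hq
  have hq0 : ∀ i, 0 ≤ q i := fun i => by simp only [hq]; linarith [hp1 i]
  set g : Fin n → ℝ := fun j => ww (th + d j) with hg
  set e : Fin n → ℝ := fun j => if 1 < th + d j then q j else 0 with he
  have he0 : ∀ j, 0 ≤ e j := by
    intro j
    simp only [he]
    split_ifs
    · exact hq0 j
    · exact le_refl _
  have heq : ∀ j, e j ≤ q j := by
    intro j
    simp only [he]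
    split_ifs
    · exact le_refl _
    · exact hq0 j
  set c := ww (2 * th) with hcdef
  have hpt : ∀ i j, ww (d i + d j) * t i j ≤ c * (p i * p j * t i j) +
      p i * (g j * q j) * t i j + (g i * q i) * p j * t i j + e i * e j * t i j := by
    intro i j
    have h1 : ww (d i + d j) * t i j = p i * p j * ww (d i + d j) * t i j +
      p i * q j * ww (d i + d j) * t i j + q i * p j * ww (d i + d j) * t i j +
      q i * q j * ww (d i + d j) * t i j := by
      simp only [hq]; ring
    have pd : ∀ i, 0 < p i → d i = th := fun i h => hth' i h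
    have k1 : p i * p j * ww (d i + d j) = c * (p i * p j) := by
      rcases (hp0 i).eq_or_lt with h | h
      · rw [← h]; ring
      rcases (hp0 j).eq_or_lt with h' | h'
      · rw [← h']; ring
      rw [pd i h, pd j h', ← two_mul]
      ring
    have k2 : p i * q j * ww (d i + d j) = p i * (g j * q j) := by
      rcases (hp0 i).eq_or_lt with h | h
      · rw [← h]; ring
      rw [pd i h]
      simp only [hg]
      ring
    have k3 : q i * p j * ww (d i + d j) = (g i * q i) * p j := by
      rcases (hp0 j).eq_or_lt with h | h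
      · rw [← h]; ring
      rw [pd j h, add_comm (d i) th]
      simp only [hg]
      ring
    have k4 : q i * q j * ww (d i + d j) ≤ e i * e j := by
      have hi := hth i
      have hj := hth j
      by_cases h : 1 < d i + d j
      · have e1 : e i = q i := by
          simp only [he]
          rw [if_pos]
          linarith
        have e2 : e j = q j := by
          simp only [he]
          rw [if_pos]
          linarith
        rw [e1, e2]
        exact mul_le_of_le_one_right (mul_nonneg (hq0 i) (hq0 j)) (ww_le_one _)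
      · have e1 : ww (d i + d j) = 0 := by
          unfold ww
          rw [if_neg h]
        rw [e1, mul_zero]
        exact mul_nonneg (he0 i) (he0 j)
    rw [h1, k1, k2, k3]
    have k5 := mul_le_mul_of_nonneg_right k4 (ht0 i j)
    linarith
  have hsum : ∑ i, ∑ j, ww (d i + d j) * t i j ≤
      c * (∑ i, ∑ j, p i * p j * t i j) + (∑ i, ∑ j, p i * (g j * q j) * t i j) +
      (∑ i, ∑ j, (g i * q i) * p j * t i j) + ∑ i, ∑ j, e i * e j * t i j := by
    rw [Finset.mul_sum, ← Finset.sum_add_distrib, ← Finset.sum_add_distrib,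
      ← Finset.sum_add_distrib]
    apply Finset.sum_le_sum
    intro i _
    rw [Finset.mul_sum, ← Finset.sum_add_distrib, ← Finset.sum_add_distrib,
      ← Finset.sum_add_distrib]
    apply Finset.sum_le_sum
    intro j _
    exact hpt i j
  simp only [htx] at hsum ⊢
  have s1 := sum_t p p d x y
  have s2 := sum_t p (fun j => g j * q j) d x y
  have s3 := sum_t (fun j => g j * q j) p d x y
  have s4 := sum_t e e d x y
  rw [s1, s2, s3, s4, hpd, hpx, hpy, hp2] at hsum
  -- the mixed terms
  have hmix : ∀ j, (g j * q j) * (th + d j) = e j * (th + d j - 1) := by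
    intro j
    simp only [hg, he]
    unfold ww
    split_ifs with h
    · have : th + d j ≠ 0 := by linarith
      field_simp
    · ring
  have hmix2 : (∑ j, g j * q j) * th + ∑ j, g j * q j * d j = (∑ j, e j) * (th - 1) + ∑ j, e j * d j := by
    rw [Finset.sum_mul, Finset.sum_mul, ← Finset.sum_add_distrib, ← Finset.sum_add_distrib]
    apply Finset.sum_congr rfl
    intro j _
    have := hmix j
    linarith
  have hc4 : c * (4 * th) = 4 * th - 2 := by
    rw [hcdef]
    unfold ww
    rw [if_pos hc]
    have : th ≠ 0 := by linarith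
    field_simp
    ring
  -- the normalisation
  set rest : ℝ := ∑ j, (q j - e j) * (r j / 2 + ((x j - u) ^ 2 + (y j - v) ^ 2)) with hrest
  have hrest0 : 0 ≤ rest := by
    apply Finset.sum_nonneg
    intro j _
    have h1 := heq j
    have h2 := hr j
    exact mul_nonneg (by linarith) (by positivity)
  have hnorm : th + 2 * (u ^ 2 + v ^ 2) + rest + ((∑ j, e j * d j) / 2 -
      2 * (u * ∑ j, e j * x j) - 2 * (v * ∑ j, e j * y j) + (∑ j, e j) * (u ^ 2 + v ^ 2)) = 1 := by
    have h1 : ∑ i, (r i / 2 + ‖a i - β‖ ^ 2) = ∑ i, (p i * d i / 2 - 2 * (u * (p i * x i)) -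
        2 * (v * (p i * y i)) + p i * (u ^ 2 + v ^ 2) +
        (q i - e i) * (r i / 2 + ((x i - u) ^ 2 + (y i - v) ^ 2)) +
        (e i * d i / 2 - 2 * (u * (e i * x i)) - 2 * (v * (e i * y i)) +
          e i * (u ^ 2 + v ^ 2))) := by
      apply Finset.sum_congr rfl
      intro i _
      rw [nsq, Complex.sub_re, Complex.sub_im, hdx]
      simp only [hq, hx, hy, hu, hv]
      ring
    rw [h1] at hn
    simp only [Finset.sum_add_distrib, Finset.sum_sub_distrib, ← Finset.mul_sum, ← Finset.sum_div,
      ← Finset.sum_mul] at hn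
    rw [hpd, hpx, hpy, hp2, ← hrest] at hn
    linarith
  set K := ∑ j, e j with hK
  set DJ := ∑ j, e j * d j with hDJ
  set Sx := ∑ j, e j * x j with hSx
  set Sy := ∑ j, e j * y j with hSy
  have hK0 : 0 ≤ K := Finset.sum_nonneg fun j _ => he0 j
  have hfin : 0 ≤ (K + 2) * rest := mul_nonneg (by linarith) hrest0
  have hsq1 := sq_nonneg ((K + 2) * u - Sx)
  have hsq2 := sq_nonneg ((K + 2) * v - Sy)
  have hth1 : th = 1 - 2 * (u ^ 2 + v ^ 2) - rest - (DJ / 2 - 2 * (u * Sx) - 2 * (v * Sy) +
      K * (u ^ 2 + v ^ 2)) := by linarith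
  have key : 2 - (4 * th - 2 + 2 * (K * (th - 1) + DJ) + (K * DJ - 2 * (Sx ^ 2 + Sy ^ 2))) =
      2 * (((K + 2) * u - Sx) ^ 2 + ((K + 2) * v - Sy) ^ 2 + (K + 2) * rest) := by
    rw [hth1]; ring
  nlinarith [hsum, hmix2, hc4, key]

end Pool.Agent.Z26.LW.W965.LW
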