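import Mathlib
import Pool.Agent.Z26.LW.W781_LW_Scal4
import Pool.Agent.Z26.LW.W965_LWFlat

/-! The scalar inequality (flat case by helper965, case I here). -/

set_option autoImplicit false

namespace Pool.Agent.Z26.LW.W781.LW

lemma nsq (z : ℂ) : ‖z‖ ^ 2 = z.re ^ 2 + z.im ^ 2 := by
  rw [Complex.sq_norm, Complex.normSq_apply]; ring

theorem scal : S_SCAL := by
  intro n p r a β hp0 hp1 hp2 hpa hr hr2 hex hn
  have hne : (Finset.univ : Finset (Fin n)).Nonempty := by
    by_contra h
    rw [Finset.not_nonempty_iff_eq_empty] at h
    rw [h] at hp2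
    norm_num at hp2
  obtain ⟨i0, -, hi0⟩ := Finset.exists_max_image Finset.univ (sd a r) hne
  by_cases hflat : ∀ j, 0 < p j → sd a r j = sd a r i0
  · exact Pool.Agent.Z26.LW.W965.LW.scal_flat n p r a β (sd a r i0) hp0 hp1 hp2 hpa hr
      (fun i => hi0 i (Finset.mem_univ i)) hflat hn
  · push Not at hflat
    obtain ⟨j0, hj0, hne0⟩ := hflat
    have hlt : sd a r j0 < sd a r i0 := lt_of_le_of_ne (hi0 j0 (Finset.mem_univ _)) hne0
    have hji : j0 ≠ i0 := fun h => by rw [h] at hne0; exact hne0 rfl
    have hpi0 : p i0 = 1 := by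
      by_contra h
      have := hex i0 j0 (lt_of_le_of_ne (hp1 i0) h) hj0
      linarith
    -- three distinct indices
    have three : ∀ i j k : Fin n, i ≠ j → i ≠ k → j ≠ k → p i + p j + p k ≤ 2 := by
      intro i j k h1 h2 h3
      have h := Finset.sum_le_sum_of_subset_of_nonneg (s := {i, j, k}) (t := Finset.univ)
        (f := p) (Finset.subset_univ _) (fun x _ _ => hp0 x)
      rw [hp2, Finset.sum_insert (by simp [h1, h2]), Finset.sum_pair h3] at h
      linarith
    have hle : ∀ i, i ≠ i0 → sd a r i ≤ sd a r j0 := by
      intro i hi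
      by_contra h
      push Not at h
      have hpi : p i = 1 := by
        by_contra h2
        have := hex i j0 (lt_of_le_of_ne (hp1 i) h2) hj0
        linarith
      have hij : i ≠ j0 := fun h3 => by rw [h3] at h; exact lt_irrefl _ h
      have := three i0 i j0 hi.symm hji.symm hij
      linarith
    have heq : ∀ j, j ≠ i0 → p j = 0 ∨ sd a r j = sd a r j0 := by
      intro j hj
      rcases eq_or_lt_of_le (hp0 j) with h | h
      · exact Or.inl h.symm
      · right
        apply le_antisymm (hle j hj)
        by_cases h1 : p j0 < 1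
        · exact hex j0 j h1 h
        · have h2 : p j0 = 1 := le_antisymm (hp1 j0) (not_lt.mp h1)
          by_cases h3 : j = j0
          · rw [h3]
          · have := three i0 j j0 hj.symm hji.symm h3
            linarith
    have hsd : ∀ j, sd a r j = 2 * ((a j).re ^ 2 + (a j).im ^ 2) + r j := by
      intro j
      unfold sd
      rw [nsq]
    have hst : ∀ i j, st a r i j = tt (fun i => (a i).re) (fun i => (a i).im) r i j := by
      intro i j
      unfold st tt
      rw [nsq, Complex.sub_re, Complex.sub_im]
    have hsum : ∀ f : Fin n → ℝ, ∑ j, f j = f i0 + ∑ j ∈ Finset.univ.erase i0, f j := by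
      intro f
      exact (Finset.add_sum_erase _ _ (Finset.mem_univ i0)).symm
    have hre : ∑ j, p j * (a j).re = 0 := by
      have := congrArg Complex.re hpa
      simpa using this
    have him : ∑ j, p j * (a j).im = 0 := by
      have := congrArg Complex.im hpa
      simpa using this
    have key := caseI (Finset.univ.erase i0) p (fun i => (a i).re) (fun i => (a i).im) r
      (sd a r) (a i0).re (a i0).im (r i0) β.re β.im ((sd a r i0 + sd a r j0) / 2)
      ((sd a r i0 - sd a r j0) / 2)
      (fun j _ => hp0 j) (fun j _ => hp1 j)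
      (by rw [hsum, hpi0] at hp2; linarith)
      (by rw [hsum, hpi0] at hre; linarith)
      (by rw [hsum, hpi0] at him; linarith)
      (fun j _ => hr j) (hr i0)
      (by have := hr2 i0; rw [hsum] at this; linarith)
      hsd
      (fun j hj => by have := hle j (Finset.ne_of_mem_erase hj); linarith)
      (fun j hj => by
        rcases heq j (Finset.ne_of_mem_erase hj) with h | h
        · exact Or.inl h
        · right; rw [h]; ring)
      (by rw [hsd i0]; ring)
      (by linarith)
      (by
        rw [hsum] at hn
        simp only [nsq, Complex.sub_re, Complex.sub_im] at hn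
        linarith)
    have e1 : (sd a r i0 + sd a r j0) / 2 + (sd a r i0 - sd a r j0) / 2 = sd a r i0 := by ring
    rw [e1] at key
    refine le_trans (le_of_eq ?_) key
    rw [hsum]
    have e2 : ∑ j, ww (sd a r i0 + sd a r j) * st a r i0 j = ww (2 * sd a r i0) * r i0
        + ∑ j ∈ Finset.univ.erase i0, ww (sd a r i0 + sd a r j) * st a r i0 j := by
      rw [hsum]
      congr 1
      rw [← two_mul]
      congr 1
      unfold st
      simp
    have e3 : ∑ i ∈ Finset.univ.erase i0, ∑ j, ww (sd a r i + sd a r j) * st a r i j =
        ∑ i ∈ Finset.univ.erase i0, ww (sd a r i0 + sd a r i) * st a r i0 i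
        + ∑ i ∈ Finset.univ.erase i0, ∑ j ∈ Finset.univ.erase i0,
          ww (sd a r i + sd a r j) * st a r i j := by
      rw [← Finset.sum_add_distrib]
      apply Finset.sum_congr rfl
      intro i hi
      rw [hsum]
      congr 1
      rw [add_comm (sd a r i), hst i i0, hst i0 i, tt_symm]
    rw [e2, e3]
    have e4 : ∑ j ∈ Finset.univ.erase i0, ww (sd a r i0 + sd a r j) * st a r i0 j =
        ∑ j ∈ Finset.univ.erase i0, ww (sd a r i0 + sd a r j) *
          (((a i0).re - (a j).re) ^ 2 + ((a i0).im - (a j).im) ^ 2 + (r i0 + r j) / 2) := by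
      apply Finset.sum_congr rfl
      intro j hj
      rw [hst]
      rfl
    have e5 : ∑ i ∈ Finset.univ.erase i0, ∑ j ∈ Finset.univ.erase i0,
          ww (sd a r i + sd a r j) * st a r i j = ∑ i ∈ Finset.univ.erase i0,
          ∑ j ∈ Finset.univ.erase i0, ww (sd a r i + sd a r j) *
            tt (fun i => (a i).re) (fun i => (a i).im) r i j := by
      apply Finset.sum_congr rfl
      intro i hi
      apply Finset.sum_congr rfl
      intro j hj
      rw [hst]
    rw [e4, e5]
    ring

end Pool.Agent.Z26.LW.W781.LW
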