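import Mathlib
import Pool.Agent.Z26.LW.W781_LW_Scal
import Pool.Agent.Z26.LW.W359_LWOPT
import Pool.Agent.Z26.LW.W991_LW_LemA
import Pool.Agent.Z26.LW.W743_LWGlue
import Pool.Agent.Z26.LW.W181_LW_Iso
import Pool.Agent.Z26.LW.W250_LW_DDVV
import Pool.Agent.Z26.LW.W351_LWFam
import Pool.Agent.Z26.LW.W591_LW_Eig

/-! The Ge-Li-Lu-Zhou inequality and the Lu-Wenzel fundamental conjecture: assembly.
Parts: optimal shift (helper359), trace bound (helper991), gluing (helper743), isotropic families
(helper181), DDVV form (helper250), families over RCLike fields (helper351), eigenvalues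
(helper591), flat case of the scalar inequality (helper965). -/

set_option autoImplicit false

namespace Pool.Agent.Z26.LW.W781.LW

theorem main : S_MAIN :=
  Pool.Agent.Z26.LW.W743.LWGlue.glue scal Pool.Agent.Z26.LW.W359.LWOPT.opt Pool.Agent.Z26.LW.W991.LW.lema

theorem iso : S_ISO := Pool.Agent.Z26.LW.W181.LW.iso main

theorem fund : S_FUND := Pool.Agent.Z26.LW.W181.LW.fund iso

theorem s06087 : S_06087 := Pool.Agent.Z26.LW.W351.LWFam.f06087 main

theorem s05813 : S_05813 := Pool.Agent.Z26.LW.W351.LWFam.f05813 main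

theorem s05301 : S_05301 := Pool.Agent.Z26.LW.W591.LW.f05301 main

theorem s04751 : S_04751 := Pool.Agent.Z26.LW.W250.LW.ddvv iso

end Pool.Agent.Z26.LW.W781.LW
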