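import Mathlib
import Pool.Agent.Z26.LW.W781_LW_Main

set_option autoImplicit false

open Matrix

namespace Pool.Agent.Z26.LW.Refined

open Pool.Agent.Z26.LW.W781.LW Pool.Agent.Z26.LW.W591.LW

section a
variable {K : Type} [RCLike K] {n : ℕ}

theorem ent (X : Matrix (Fin n) (Fin n) K) (a b i j : Fin n) :
    TT X (Matrix.single a b (1:K)) i j =
      (Xᴴ * X) i a * (if b = j then 1 else 0) - Xᴴ i a * X b j - X i a * Xᴴ b j +
        (if i = a then 1 else 0) * (X * Xᴴ) b j := by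
  have h : TT X (Matrix.single a b (1:K)) =
      (Xᴴ * X) * Matrix.single a b (1:K) - (Xᴴ * Matrix.single a b (1:K)) * X
        - (X * Matrix.single a b (1:K)) * Xᴴ + Matrix.single a b (1:K) * (X * Xᴴ) := by
    unfold TT
    simp only [Matrix.mul_sub, Matrix.sub_mul, Matrix.mul_assoc]
    abel
  have e1 : ∀ (A : Matrix (Fin n) (Fin n) K) (i j : Fin n),
      (A * Matrix.single a b (1:K)) i j = A i a * (if b = j then 1 else 0) := by
    intro A i j
    rw [Matrix.mul_apply, Finset.sum_eq_single a]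
    · rw [Matrix.single_apply]; simp
    · intro k _ hk
      rw [Matrix.single_apply, if_neg, mul_zero]
      rintro ⟨h1, _⟩; exact hk h1.symm
    · simp
  have e2 : ∀ (A : Matrix (Fin n) (Fin n) K) (i j : Fin n),
      (Matrix.single a b (1:K) * A) i j = (if i = a then 1 else 0) * A b j := by
    intro A i j
    rw [Matrix.mul_apply, Finset.sum_eq_single b]
    · rw [Matrix.single_apply]
      by_cases h : i = a
      · simp [h]
      · rw [if_neg (fun h' => h h'.1.symm), if_neg h]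
    · intro k _ hk
      rw [Matrix.single_apply, if_neg, zero_mul]
      rintro ⟨_, h1⟩; exact hk h1.symm
    · simp
  have e3 : ∀ (A B : Matrix (Fin n) (Fin n) K) (i j : Fin n),
      ((A * Matrix.single a b (1:K)) * B) i j = A i a * B b j := by
    intro A B i j
    rw [Matrix.mul_apply, Finset.sum_eq_single b]
    · rw [e1]; simp
    · intro k _ hk
      rw [e1, if_neg (fun h' => hk h'.symm)]; simp
    · simp
  rw [h, Matrix.add_apply, Matrix.sub_apply, Matrix.sub_apply, e1, e2, e3, e3]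

theorem herm (X : Matrix (Fin n) (Fin n) K) : (Mx X).IsHermitian := by
  ext p q
  rw [Matrix.conjTranspose_apply]
  show star (TT X (Matrix.single p.1 p.2 (1:K)) q.1 q.2) = TT X (Matrix.single q.1 q.2 (1:K)) p.1 p.2
  rw [ent, ent]
  have h1 : ∀ i j, star ((Xᴴ * X) i j) = (Xᴴ * X) j i := by
    intro i j
    have := congrFun (congrFun (Matrix.isHermitian_conjTranspose_mul_self X) j) i
    rw [Matrix.conjTranspose_apply] at this
    exact this
  have h2 : ∀ i j, star ((X * Xᴴ) i j) = (X * Xᴴ) j i := by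
    intro i j
    have := congrFun (congrFun (Matrix.isHermitian_mul_conjTranspose_self X) j) i
    rw [Matrix.conjTranspose_apply] at this
    exact this
  simp only [star_add, star_sub, star_mul', h1, h2, Matrix.conjTranspose_apply, star_star]
  by_cases a1 : p.2 = q.2
  · have a1' : q.2 = p.2 := a1.symm
    by_cases a2 : q.1 = p.1
    · have a2' : p.1 = q.1 := a2.symm
      rw [if_pos a1, if_pos a1', if_pos a2, if_pos a2', a1, a2]
      simp
      ring
    · have a2' : ¬ p.1 = q.1 := fun h => a2 h.symm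
      rw [if_pos a1, if_pos a1', if_neg a2, if_neg a2']
      simp
      ring
  · have a1' : ¬ q.2 = p.2 := fun h => a1 h.symm
    by_cases a2 : q.1 = p.1
    · have a2' : p.1 = q.1 := a2.symm
      rw [if_neg a1, if_neg a1', if_pos a2, if_pos a2']
      simp
      ring
    · have a2' : ¬ p.1 = q.1 := fun h => a2 h.symm
      rw [if_neg a1, if_neg a1', if_neg a2, if_neg a2']
      simp
      ring

theorem trace_Mx (X : Matrix (Fin n) (Fin n) K) :
    (Mx X).trace = ((2 * n * (∑ i, ∑ j, ‖X i j‖ ^ 2) - 2 * ‖X.trace‖ ^ 2 : ℝ) : K) := by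
  have h0 : (Mx X).trace = ∑ i, ∑ j, ((Xᴴ * X) i i - Xᴴ i i * X j j - X i i * Xᴴ j j +
      (X * Xᴴ) j j) := by
    rw [Matrix.trace, Fintype.sum_prod_type]
    refine Finset.sum_congr rfl fun i _ => Finset.sum_congr rfl fun j _ => ?_
    show TT X (Matrix.single i j (1:K)) i j = _
    rw [ent]
    simp
  have hF : (∑ i, (X * Xᴴ) i i) = ((∑ i, ∑ j, ‖X i j‖ ^ 2 : ℝ) : K) := by
    push_cast
    refine Finset.sum_congr rfl fun i _ => ?_
    rw [Matrix.mul_apply]
    refine Finset.sum_congr rfl fun j _ => ?_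
    rw [Matrix.conjTranspose_apply, mul_comm, star_mul_self']
    push_cast; rfl
  have hF2 : (∑ i, (Xᴴ * X) i i) = ((∑ i, ∑ j, ‖X i j‖ ^ 2 : ℝ) : K) := by
    rw [← hF]
    exact Matrix.trace_mul_comm _ _
  have hT : (∑ i, Xᴴ i i) * (∑ j, X j j) = ((‖X.trace‖ ^ 2 : ℝ) : K) := by
    have : (∑ i, Xᴴ i i) = star (X.trace) := by
      rw [Matrix.trace, star_sum]; rfl
    rw [this]
    exact star_mul_self' _
  rw [h0]
  simp only [Finset.sum_add_distrib, Finset.sum_sub_distrib, Finset.sum_const, Finset.card_univ,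
    Fintype.card_fin, nsmul_eq_mul, ← Finset.mul_sum, ← Finset.sum_mul]
  rw [hF2, hF]
  have hT' : (∑ i, X i i) * (∑ j, Xᴴ j j) = ((‖X.trace‖ ^ 2 : ℝ) : K) := by rw [mul_comm]; exact hT
  rw [hT, hT']
  push_cast
  ring

theorem eig_sum (X : Matrix (Fin n) (Fin n) K) (hM : (Mx X).IsHermitian) :
    ∑ p, hM.eigenvalues p = 2 * n * (∑ i, ∑ j, ‖X i j‖ ^ 2) - 2 * ‖X.trace‖ ^ 2 := by
  have h1 := hM.trace_eq_sum_eigenvalues
  rw [trace_Mx] at h1
  have h2 : ((∑ p, hM.eigenvalues p : ℝ) : K) =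
      ((2 * n * (∑ i, ∑ j, ‖X i j‖ ^ 2) - 2 * ‖X.trace‖ ^ 2 : ℝ) : K) := by
    rw [h1]; push_cast; rfl
  exact_mod_cast h2

theorem fro_shift (A : Matrix (Fin n) (Fin n) ℂ) (hn : 0 < n) :
    fro (A - (A.trace / n) • (1 : Matrix (Fin n) (Fin n) ℂ)) = fro A - ‖A.trace‖ ^ 2 / n := by
  set c : ℂ := A.trace / n with hc
  have h1 : ∀ i j, ‖(A - c • (1 : Matrix (Fin n) (Fin n) ℂ)) i j‖ ^ 2 =
      ‖A i j‖ ^ 2 + (if i = j then ‖c‖ ^ 2 - 2 * (star c * A i j).re else 0) := by
    intro i j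
    by_cases h : i = j
    · subst h
      simp only [Matrix.sub_apply, Matrix.smul_apply, Matrix.one_apply_eq, smul_eq_mul, mul_one,
        if_true]
      rw [Complex.sq_norm, Complex.sq_norm, Complex.sq_norm, Complex.normSq_apply,
        Complex.normSq_apply, Complex.normSq_apply]
      simp
      ring
    · simp [h]
  unfold fro
  simp only [h1, Finset.sum_add_distrib, Finset.sum_ite_eq, Finset.mem_univ, if_true,
    Finset.sum_sub_distrib, Finset.sum_const, Finset.card_univ, Fintype.card_fin, nsmul_eq_mul]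
  have h2 : ∑ i, 2 * (star c * A i i).re = 2 * (star c * A.trace).re := by
    rw [← Finset.mul_sum, ← Complex.re_sum, ← Finset.mul_sum]; rfl
  have hn' : (n : ℂ) ≠ 0 := by exact_mod_cast hn.ne'
  have hn'' : (n : ℝ) ≠ 0 := by exact_mod_cast hn.ne'
  have h3 : A.trace = n * c := by rw [hc]; field_simp
  have h4 : (star c * A.trace).re = n * ‖c‖ ^ 2 := by
    rw [h3, Complex.sq_norm, Complex.normSq_apply]
    simp
    ring
  have h5 : ‖A.trace‖ ^ 2 = n ^ 2 * ‖c‖ ^ 2 := by
    rw [h3, norm_mul, mul_pow, Complex.norm_natCast]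
  rw [h2, h4, h5]
  field_simp
  ring

end a

theorem refined (K : Type) [RCLike K] (n : ℕ) (X : Matrix (Fin n) (Fin n) K)
    (hM : (Mx X).IsHermitian) (S : Finset (Fin n × Fin n)) :
    ∑ p ∈ S, hM.eigenvalues p ≤
      min ((S.card : ℝ) + 2) (2 * n) * ((∑ i, ∑ j, ‖X i j‖ ^ 2) - ‖X.trace‖ ^ 2 / n) := by
  rcases Nat.eq_zero_or_pos n with hn | hn
  · subst hn
    have : S = ∅ := Finset.eq_empty_of_isEmpty S
    subst this
    simp
  obtain ⟨h1, h2⟩ := main_K X hM
  have hpos : ∀ p, 0 ≤ hM.eigenvalues p := fun p => by rw [h1]; positivity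
  have hn'' : (n : ℝ) ≠ 0 := by exact_mod_cast hn.ne'
  let e : Fin S.card ≃ S := S.equivFin.symm
  let Z : Fin S.card → Matrix (Fin n) (Fin n) ℂ :=
    fun a => (ymat (⇑(hM.eigenvectorBasis (e a)))).map phi
  have hZ : ∀ a, fro (Z a) = 1 := by
    intro a
    have h3 := h2 (e a) (e a)
    rw [trace_eq, if_pos rfl] at h3
    have h4 : ((∑ i, ∑ j, ‖ymat (⇑(hM.eigenvectorBasis (e a))) i j‖ ^ 2 : ℝ) : K) = 1 := by
      rw [← h3]
      push_cast
      refine Finset.sum_congr rfl fun i _ => Finset.sum_congr rfl fun j _ => ?_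
      rw [star_mul_self']
      push_cast
      rfl
    show fro ((ymat (⇑(hM.eigenvectorBasis (e a)))).map phi) = 1
    rw [fro_map]
    exact_mod_cast h4
  set A : Matrix (Fin n) (Fin n) ℂ := X.map phi with hA
  set B : Matrix (Fin n) (Fin n) ℂ := A - (A.trace / n) • (1 : Matrix (Fin n) (Fin n) ℂ) with hB
  have hmn := Pool.Agent.Z26.LW.W781.LW.main n S.card B Z 1 zero_le_one (by
    intro a b hab
    show trace ((ymat (⇑(hM.eigenvectorBasis (e a)))).map phi *
      ((ymat (⇑(hM.eigenvectorBasis (e b)))).map phi)ᴴ) = 0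
    rw [trace_star, h2, if_neg, map_zero]
    intro h
    exact hab (e.injective (Subtype.ext h))) (fun a => (hZ a).le)
  have hcom : ∀ Y : Matrix (Fin n) (Fin n) ℂ, com B Y = com A Y := by
    intro Y
    rw [hB]
    unfold com
    rw [Matrix.sub_mul, Matrix.mul_sub, Matrix.smul_mul, Matrix.mul_smul, Matrix.one_mul,
      Matrix.mul_one]
    abel
  have h5 : ∑ a, fro (com B (Z a)) = ∑ p ∈ S, hM.eigenvalues p := by
    rw [← Finset.sum_coe_sort S, ← e.sum_comp]
    refine Finset.sum_congr rfl fun a _ => ?_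
    rw [hcom]
    show fro (com (X.map phi) ((ymat (⇑(hM.eigenvectorBasis (e a)))).map phi)) = _
    rw [com_map, fro_map, ← h1]
  have h6 : fro B = (∑ i, ∑ j, ‖X i j‖ ^ 2) - ‖X.trace‖ ^ 2 / n := by
    rw [hB, fro_shift A hn, hA, fro_map, W591.LW.trace_map, norm_phi]
  rw [h5, h6, Finset.sum_congr rfl fun a _ => hZ a, Finset.sum_const, Finset.card_univ,
    Fintype.card_fin, nsmul_eq_mul] at hmn
  have h7 : 0 ≤ (∑ i, ∑ j, ‖X i j‖ ^ 2) - ‖X.trace‖ ^ 2 / n := by
    rw [← h6]; unfold fro; positivity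
  have h8 : ∑ p ∈ S, hM.eigenvalues p ≤ 2 * n * ((∑ i, ∑ j, ‖X i j‖ ^ 2) - ‖X.trace‖ ^ 2 / n) := by
    calc ∑ p ∈ S, hM.eigenvalues p ≤ ∑ p, hM.eigenvalues p :=
          Finset.sum_le_univ_sum_of_nonneg hpos
      _ = _ := by rw [eig_sum]; field_simp
  rcases min_choice ((S.card : ℝ) + 2) (2 * n) with h | h
  · rw [h]; linarith
  · rw [h]; exact h8

end Pool.Agent.Z26.LW.Refined
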